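import Mathlib
import Pool.Agent.Helper189.RankOne

set_option autoImplicit false

namespace Pool.Agent.Results.MP_caba0b_al.RankOne

/-- `A` belongs to Bergman's class `𝐀`: any two compact (Hausdorff) groups containing `A` embed in
one compact group by embeddings that agree on `A`. -/
def AmalgBase (A : Type) [Group A] [TopologicalSpace A] : Prop :=
  ∀ (B C : Type) [Group B] [TopologicalSpace B] [IsTopologicalGroup B]
    [CompactSpace B] [T2Space B] [Group C] [TopologicalSpace C] [IsTopologicalGroup C]
    [CompactSpace C] [T2Space C] (f : A →* B) (g : A →* C),
    Continuous f → Function.Injective f → Continuous g → Function.Injective g →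
    ∃ (D : Type) (_ : Group D) (_ : TopologicalSpace D),
      IsTopologicalGroup D ∧ CompactSpace D ∧ T2Space D ∧
      ∃ (φ : B →* D) (ψ : C →* D),
        Continuous φ ∧ Function.Injective φ ∧ Continuous ψ ∧ Function.Injective ψ ∧
        ∀ a : A, φ (f a) = ψ (g a)

/-- `G` has rank at most one: it is trivial, or it has a circle subgroup that meets every
conjugacy class. (For a compact connected Lie group this says that a maximal torus has dimension
at most one.) -/
def RankLeOne (G : Type) [Group G] [TopologicalSpace G] : Prop :=
  (∀ q : G, q = 1) ∨
  ∃ j : Circle →* G, Continuous j ∧ Function.Injective j ∧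
    ∀ q : G, ∃ (p : G) (z : Circle), q = p * j z * p⁻¹

/-- For every compact group `A` whose identity component `A₀` has rank at most one, `A₀` belongs
to `𝐀`. -/
theorem result : ∀ (A : Type) [Group A] [TopologicalSpace A] [IsTopologicalGroup A]
    [CompactSpace A] [T2Space A],
    RankLeOne (Subgroup.connectedComponentOfOne A) →
    AmalgBase (Subgroup.connectedComponentOfOne A) := by
  intro A _ _ _ _ _ h B C _ _ _ _ _ _ _ _ _ _ f g hf hfi hg hgi
  have hcl : IsClosed ((Subgroup.connectedComponentOfOne A : Subgroup A) : Set A) :=
    isClosed_connectedComponent
  have : CompactSpace (Subgroup.connectedComponentOfOne A) :=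
    isCompact_iff_compactSpace.mp hcl.isCompact
  rcases h with h | ⟨j, hj, hji, hconj⟩
  · refine ⟨B × C, inferInstance, inferInstance, inferInstance, inferInstance, inferInstance,
      MonoidHom.inl B C, MonoidHom.inr B C, ?_, ?_, ?_, ?_, ?_⟩
    · exact Continuous.prodMk continuous_id continuous_const
    · intro x y hxy
      exact congrArg Prod.fst hxy
    · exact Continuous.prodMk continuous_const continuous_id
    · intro x y hxy
      exact congrArg Prod.snd hxy
    · intro a
      rw [h a, map_one, map_one, map_one, map_one]
  · exact Helper189.RankOne.base (Subgroup.connectedComponentOfOne A) j hj hji hconj B C f g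
      hf hfi hg hgi

end Pool.Agent.Results.MP_caba0b_al.RankOne
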